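import Pool.Agent.H380.AG.Stm

set_option autoImplicit false

open MeasureTheory Metric Set Filter Topology
open scoped ENNReal RealInnerProductSpace

namespace Pool.Agent.H603.AG

open Pool.Agent.W778.AG Pool.Agent.H380.AG

theorem cont_Pg (n k : ℕ) : Continuous (Pg n k) := by
  induction k using Nat.twoStepInduction with
  | zero => exact continuous_const
  | one => exact continuous_id
  | more k h0 h1 =>
    have e : Pg n (k + 2) = fun t =>
        ((2 * (k : ℝ) + n) * t * Pg n (k + 1) t - ((k : ℝ) + 1) * Pg n k t) /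
          ((k : ℝ) + n - 1) := by
      funext t
      rfl
    rw [e]
    exact (((continuous_const.mul continuous_id).mul h1).sub
      (continuous_const.mul h0)).div_const _

theorem lip_Pg (n k : ℕ) : ∃ M L : ℝ, 0 ≤ M ∧ 0 ≤ L ∧ (∀ t : ℝ, |t| ≤ 1 → |Pg n k t| ≤ M) ∧
    ∀ s t : ℝ, |s| ≤ 1 → |t| ≤ 1 → |Pg n k s - Pg n k t| ≤ L * |s - t| := by
  induction k using Nat.twoStepInduction with
  | zero =>
    refine ⟨1, 0, by norm_num, le_rfl, fun t _ => ?_, fun s t _ _ => ?_⟩
    · simp [Pg]
    · simp [Pg]
  | one =>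
    refine ⟨1, 1, by norm_num, by norm_num, fun t ht => ?_, fun s t _ _ => ?_⟩
    · simpa [Pg] using ht
    · simp [Pg]
  | more k h0 h1 =>
    obtain ⟨M0, L0, hM0, hL0, hb0, hl0⟩ := h0
    obtain ⟨M1, L1, hM1, hL1, hb1, hl1⟩ := h1
    set A : ℝ := 2 * (k : ℝ) + n with hA
    set B : ℝ := (k : ℝ) + 1 with hB
    set C : ℝ := (k : ℝ) + n - 1 with hC
    have hA0 : 0 ≤ A := by positivity
    have hB0 : 0 ≤ B := by positivity
    have e : ∀ t, Pg n (k + 2) t = (A * t * Pg n (k + 1) t - B * Pg n k t) * C⁻¹ := by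
      intro t
      rfl
    refine ⟨(A * M1 + B * M0) * |C⁻¹|, (A * (L1 + M1) + B * L0) * |C⁻¹|, by positivity,
      by positivity, fun t ht => ?_, fun s t hs ht => ?_⟩
    · rw [e, abs_mul]
      refine mul_le_mul_of_nonneg_right ?_ (abs_nonneg _)
      calc |A * t * Pg n (k + 1) t - B * Pg n k t|
          ≤ |A * t * Pg n (k + 1) t| + |B * Pg n k t| := abs_sub _ _
        _ = A * |t| * |Pg n (k + 1) t| + B * |Pg n k t| := by
            rw [abs_mul, abs_mul, abs_mul, abs_of_nonneg hA0, abs_of_nonneg hB0]
        _ ≤ A * 1 * M1 + B * M0 := by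
            gcongr
            · exact hb1 t ht
            · exact hb0 t ht
        _ = A * M1 + B * M0 := by ring
    · have e2 : Pg n (k + 2) s - Pg n (k + 2) t =
          (A * (s * (Pg n (k + 1) s - Pg n (k + 1) t) + (s - t) * Pg n (k + 1) t) -
            B * (Pg n k s - Pg n k t)) * C⁻¹ := by
        rw [e, e]
        ring
      rw [e2, abs_mul]
      have h3 : |A * (s * (Pg n (k + 1) s - Pg n (k + 1) t) + (s - t) * Pg n (k + 1) t) -
            B * (Pg n k s - Pg n k t)| ≤ (A * (L1 + M1) + B * L0) * |s - t| := by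
        calc |A * (s * (Pg n (k + 1) s - Pg n (k + 1) t) + (s - t) * Pg n (k + 1) t) -
              B * (Pg n k s - Pg n k t)|
            ≤ |A * (s * (Pg n (k + 1) s - Pg n (k + 1) t) + (s - t) * Pg n (k + 1) t)| +
              |B * (Pg n k s - Pg n k t)| := abs_sub _ _
          _ = A * |s * (Pg n (k + 1) s - Pg n (k + 1) t) + (s - t) * Pg n (k + 1) t| +
              B * |Pg n k s - Pg n k t| := by
              rw [abs_mul, abs_mul, abs_of_nonneg hA0, abs_of_nonneg hB0]
          _ ≤ A * (|s * (Pg n (k + 1) s - Pg n (k + 1) t)| + |(s - t) * Pg n (k + 1) t|) +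
              B * |Pg n k s - Pg n k t| := by
              gcongr
              exact abs_add_le _ _
          _ = A * (|s| * |Pg n (k + 1) s - Pg n (k + 1) t| + |s - t| * |Pg n (k + 1) t|) +
              B * |Pg n k s - Pg n k t| := by
              rw [abs_mul s, abs_mul (s - t)]
          _ ≤ A * (1 * (L1 * |s - t|) + |s - t| * M1) + B * (L0 * |s - t|) := by
              gcongr
              · exact hl1 s t hs ht
              · exact hb1 t ht
              · exact hl0 s t hs ht
          _ = (A * (L1 + M1) + B * L0) * |s - t| := by ring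
      calc _ ≤ (A * (L1 + M1) + B * L0) * |s - t| * |C⁻¹| :=
            mul_le_mul_of_nonneg_right h3 (abs_nonneg _)
        _ = _ := by ring

theorem restr {n : ℕ} (μ : Measure (En n)) (h : μ (closedBall 0 1)ᶜ = 0) :
    μ.restrict (closedBall 0 1) = μ :=
  Measure.restrict_eq_self_of_ae_mem (by rw [ae_iff]; exact h)

theorem integ {n : ℕ} (μ : Measure (En n)) [IsProbabilityMeasure μ]
    (h : μ (closedBall 0 1)ᶜ = 0) (f : En n → ℝ) (hf : Continuous f) : Integrable f μ := by
  have h1 : IntegrableOn f (closedBall 0 1) μ :=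
    hf.continuousOn.integrableOn_compact (isCompact_closedBall 0 1)
  unfold IntegrableOn at h1
  rwa [restr μ h] at h1

theorem cont_int {n : ℕ} (μ : Measure (En n)) [IsProbabilityMeasure μ]
    (h : μ (closedBall 0 1)ᶜ = 0) (f : En n → En n → ℝ)
    (hf : Continuous (Function.uncurry f)) : Continuous (fun u => ∫ v, f u v ∂μ) := by
  have h1 := continuous_parametric_integral_of_continuous (μ := μ) hf
    (isCompact_closedBall (0 : En n) 1)
  have h2 : (fun u => ∫ v in closedBall (0 : En n) 1, f u v ∂μ) = fun u => ∫ v, f u v ∂μ := by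
    funext u
    rw [restr μ h]
  rwa [h2] at h1

theorem cont_k (n k : ℕ) :
    Continuous (Function.uncurry fun u v : En n => Pg n k ⟪u, v⟫) :=
  (cont_Pg n k).comp (continuous_fst.inner continuous_snd)

theorem t_OK (hpar : S_PAR) : S_OK := by
  intro n q α
  refine ⟨?_, ?_, ?_, ?_, ?_⟩
  · unfold Ok
    refine continuous_finsetSum _ fun k _ => ?_
    exact continuous_const.mul (cont_k n k)
  · intro u v
    unfold Ok
    rw [real_inner_comm]
  · intro u v
    unfold Ok
    rw [← Finset.sum_neg_distrib]
    refine Finset.sum_congr rfl fun k hk => ?_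
    have hodd : Odd k := (Finset.mem_filter.1 hk).2
    rw [inner_neg_left, hpar n k, hodd.neg_one_pow]
    ring
  · choose M L hM hL hb hl using lip_Pg n
    refine ⟨(∑ k ∈ (Finset.range (2 * q)).filter (fun k => Odd k),
      |dk n k * Pg n k (Real.cos α)| * L k) + 1, ?_, ?_⟩
    · have : 0 ≤ ∑ k ∈ (Finset.range (2 * q)).filter (fun k => Odd k),
          |dk n k * Pg n k (Real.cos α)| * L k :=
        Finset.sum_nonneg fun k _ => mul_nonneg (abs_nonneg _) (hL k)
      linarith
    · intro u u' v hu hu' hv
      have hin : ∀ w : En n, ‖w‖ ≤ 1 → |⟪w, v⟫| ≤ 1 := by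
        intro w hw
        refine (abs_real_inner_le_norm w v).trans ?_
        exact mul_le_one₀ hw (norm_nonneg _) hv
      have hd : |⟪u, v⟫ - ⟪u', v⟫| ≤ ‖u - u'‖ := by
        rw [← inner_sub_left]
        refine (abs_real_inner_le_norm _ v).trans ?_
        exact mul_le_of_le_one_right (norm_nonneg _) hv
      have e : Ok n q α u v - Ok n q α u' v =
          ∑ k ∈ (Finset.range (2 * q)).filter (fun k => Odd k),
            dk n k * Pg n k (Real.cos α) * (Pg n k ⟪u, v⟫ - Pg n k ⟪u', v⟫) := by
        unfold Ok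
        rw [← Finset.sum_sub_distrib]
        exact Finset.sum_congr rfl fun k _ => by ring
      rw [e]
      calc |∑ k ∈ (Finset.range (2 * q)).filter (fun k => Odd k),
            dk n k * Pg n k (Real.cos α) * (Pg n k ⟪u, v⟫ - Pg n k ⟪u', v⟫)|
          ≤ ∑ k ∈ (Finset.range (2 * q)).filter (fun k => Odd k),
            |dk n k * Pg n k (Real.cos α) * (Pg n k ⟪u, v⟫ - Pg n k ⟪u', v⟫)| :=
            Finset.abs_sum_le_sum_abs _ _
        _ ≤ ∑ k ∈ (Finset.range (2 * q)).filter (fun k => Odd k),
            |dk n k * Pg n k (Real.cos α)| * L k * ‖u - u'‖ := by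
            refine Finset.sum_le_sum fun k _ => ?_
            rw [abs_mul, mul_assoc]
            refine mul_le_mul_of_nonneg_left ?_ (abs_nonneg _)
            refine (hl k _ _ (hin u hu) (hin u' hu')).trans ?_
            exact mul_le_mul_of_nonneg_left hd (hL k)
        _ = (∑ k ∈ (Finset.range (2 * q)).filter (fun k => Odd k),
            |dk n k * Pg n k (Real.cos α)| * L k) * ‖u - u'‖ := by rw [Finset.sum_mul]
        _ ≤ _ := by
            refine mul_le_mul_of_nonneg_right ?_ (norm_nonneg _)
            linarith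
  · intro μ μ' hμ hμ' h h'
    have e1 : ∀ u : En n, ∫ v, Ok n q α u v ∂μ' =
        ∑ k ∈ (Finset.range (2 * q)).filter (fun k => Odd k),
          dk n k * Pg n k (Real.cos α) * ∫ v, Pg n k ⟪u, v⟫ ∂μ' := by
      intro u
      unfold Ok
      rw [integral_finsetSum]
      · exact Finset.sum_congr rfl fun k _ => integral_const_mul _ _
      · intro k _
        apply Integrable.const_mul
        apply integ μ' h'
        exact (cont_Pg n k).comp (continuous_const.inner continuous_id)
    have e2 : (fun u => ∫ v, Ok n q α u v ∂μ') = fun u =>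
        ∑ k ∈ (Finset.range (2 * q)).filter (fun k => Odd k),
          dk n k * Pg n k (Real.cos α) * ∫ v, Pg n k ⟪u, v⟫ ∂μ' := funext e1
    rw [e2, integral_finsetSum]
    · unfold Of fm
      exact Finset.sum_congr rfl fun k _ => (integral_const_mul _ _).symm
    · intro k _
      apply Integrable.const_mul
      apply integ μ h
      exact cont_int μ' h' _ (cont_k n k)

end Pool.Agent.H603.AG
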